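import Pool.Agent.W844.DG.Incr

/-!
# Power-law delocalisation of the long-range discrete Gaussian chain at every temperature

Outline. Let `V` be a random integer configuration in the window, made of `h` nested unit steps
`1_{[x - s_i, x + s_i]}`, where `s_i` is uniform in the `i`-th of `h` cells of length `L`. Shifting
the field by `V` multiplies its law by a density whose second moment is exactly
`E exp (2 β B(V, V'))`, where `B` is the bilinear form of the Hamiltonian and `V'` an independent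
copy of `V`. The interaction of two steps decays like `|s - s'| ^ (2 - α)`, so for
`h L ≈ r`, `h ≈ r ^ ((α - 2) / 2)` this is bounded independently of `r`, and the Cauchy-Schwarz
inequality gives a variance at least a constant times `h ^ 2 ≈ r ^ (α - 2)`.
-/

set_option autoImplicit false

open Filter Topology

namespace Pool.Agent.Results.MP_57c4e5_pr.SharpDelocalisation

/-- Configurations: integer-valued functions on `ℤ` that vanish outside `{-n, ..., n}`. -/
abbrev Conf (n : ℕ) : Type := {ψ : ℤ → ℤ // ∀ x : ℤ, (n : ℤ) < |x| → ψ x = 0}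

/-- The Hamiltonian: the sum over unordered pairs `{x, y}`, `x ≠ y`, of
`(ψ x - ψ y)² / |x - y|^α`, written as one half of the sum over ordered pairs. -/
noncomputable def H (α : ℝ) (ψ : ℤ → ℤ) : ℝ :=
  1 / 2 * ∑' p : ℤ × ℤ, if p.1 = p.2 then (0 : ℝ)
    else ((ψ p.1 : ℝ) - (ψ p.2 : ℝ)) ^ 2 / ((|p.1 - p.2| : ℤ) : ℝ) ^ α

/-- Expectation of `f` under the discrete Gaussian chain on `{-n, ..., n}`, which gives the
configuration `ψ` the probability `exp (-β H(ψ)) / Z`. -/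
noncomputable def expect (α β : ℝ) (n : ℕ) (f : Conf n → ℝ) : ℝ :=
  (∑' ψ : Conf n, f ψ * Real.exp (-(β * H α ψ.1))) / ∑' ψ : Conf n, Real.exp (-(β * H α ψ.1))

/-- Variance of `f` under the discrete Gaussian chain on `{-n, ..., n}`. -/
noncomputable def variance (α β : ℝ) (n : ℕ) (f : Conf n → ℝ) : ℝ :=
  expect α β n fun ψ => (f ψ - expect α β n f) ^ 2

theorem H_eq (α : ℝ) (ψ : ℤ → ℤ) : H α ψ = 1 / 2 * Pool.Agent.W844.DG.en α ψ := by
  unfold H Pool.Agent.W844.DG.en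
  congr 1
  refine tsum_congr fun p => ?_
  split_ifs with h
  · rfl
  · rw [Real.rpow_neg (by positivity), div_eq_mul_inv, mul_comm]

theorem expect_inc {α β : ℝ} (n : ℕ) (x y : ℤ) :
    expect α β n (fun ψ => (ψ.1 x : ℝ) - (ψ.1 y : ℝ)) = 0 := by
  have h := Pool.Agent.W844.DG.mean_inc α (β / 2) n x y
  have h1 : ∑' ψ : Conf n, ((ψ.1 x : ℝ) - (ψ.1 y : ℝ)) * Real.exp (-(β * H α ψ.1)) = 0 := by
    rw [← h]
    refine tsum_congr fun ψ => ?_
    rw [H_eq, mul_comm]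
    congr 2
    ring
  unfold expect
  rw [h1, zero_div]

theorem variance_inc {α β : ℝ} (n : ℕ) (x y : ℤ) :
    variance α β n (fun ψ => (ψ.1 x : ℝ) - (ψ.1 y : ℝ)) =
      (∑' φ : Pool.Agent.W844.DG.Cfg n, Real.exp (-(β / 2 * Pool.Agent.W844.DG.en α φ)) *
        ((φ.1 x : ℝ) - φ.1 y) ^ 2) /
      ∑' φ : Pool.Agent.W844.DG.Cfg n, Real.exp (-(β / 2 * Pool.Agent.W844.DG.en α φ)) := by
  unfold variance
  rw [expect_inc]
  unfold expect
  have h1 : ∑' ψ : Conf n, ((ψ.1 x : ℝ) - (ψ.1 y : ℝ) - 0) ^ 2 * Real.exp (-(β * H α ψ.1)) =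
      ∑' φ : Pool.Agent.W844.DG.Cfg n, Real.exp (-(β / 2 * Pool.Agent.W844.DG.en α φ)) *
        ((φ.1 x : ℝ) - φ.1 y) ^ 2 := by
    refine tsum_congr fun ψ => ?_
    rw [H_eq, mul_comm, sub_zero]
    congr 2
    ring
  have h2 : ∑' ψ : Conf n, Real.exp (-(β * H α ψ.1)) =
      ∑' φ : Pool.Agent.W844.DG.Cfg n, Real.exp (-(β / 2 * Pool.Agent.W844.DG.en α φ)) := by
    refine tsum_congr fun ψ => ?_
    rw [H_eq]
    congr 1
    ring
  rw [h1, h2]

/-- For every `α ∈ (2, 3)` and every `β > 0` there is `c > 0` such that, for every `n`, the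
variance of `ψ 0` is at least `c (n + 1)^(α - 2)`, and the variance of every increment
`ψ x - ψ y` is at least `c r^(α - 2)` as soon as `1 ≤ r ≤ |x - y|` and `|x| + r ≤ n + 1`. -/
theorem result (α : ℝ) (hα : 2 < α) (hα3 : α < 3) (β : ℝ) (hβ : 0 < β) :
    ∃ c : ℝ, 0 < c ∧
      (∀ n : ℕ, c * ((n : ℝ) + 1) ^ (α - 2) ≤ variance α β n (fun ψ => (ψ.1 0 : ℝ))) ∧
      (∀ (n : ℕ) (x y : ℤ) (r : ℕ), 1 ≤ r → (r : ℤ) ≤ |x - y| → |x| + r ≤ n + 1 →
        c * (r : ℝ) ^ (α - 2) ≤ variance α β n (fun ψ => (ψ.1 x : ℝ) - (ψ.1 y : ℝ))) := by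
  have hβ2 : 0 < β / 2 := by linarith
  have main : ∀ (n : ℕ) (x y : ℤ) (r : ℕ), 1 ≤ r → (r : ℤ) ≤ |x - y| → |x| + r ≤ n + 1 →
      Pool.Agent.W844.DG.kk α (β / 2) * (r : ℝ) ^ (α - 2) ≤
        variance α β n (fun ψ => (ψ.1 x : ℝ) - (ψ.1 y : ℝ)) := by
    intro n x y r hr hxy hx
    rw [variance_inc, le_div_iff₀ (Pool.Agent.W844.DG.Z_pos hα hβ2 n)]
    exact Pool.Agent.W844.DG.inc_bound hα hα3 hβ2 n x y r hr hx (by rwa [abs_sub_comm])
  refine ⟨Pool.Agent.W844.DG.kk α (β / 2), Pool.Agent.W844.DG.kk_pos _ _, fun n => ?_, main⟩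
  have h := main n 0 ((n : ℤ) + 1) (n + 1) (by omega)
    (by
      rw [zero_sub, abs_neg, abs_of_nonneg (by positivity)]
      push_cast
      exact le_rfl)
    (by simp)
  have e : (fun ψ : Conf n => (ψ.1 0 : ℝ) - (ψ.1 ((n : ℤ) + 1) : ℝ)) =
      fun ψ : Conf n => (ψ.1 0 : ℝ) := by
    funext ψ
    rw [ψ.2 ((n : ℤ) + 1) (by rw [abs_of_nonneg (by positivity)]; omega)]
    simp
  rw [e] at h
  push_cast at h
  exact h

end Pool.Agent.Results.MP_57c4e5_pr.SharpDelocalisation
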